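import Mathlib

open MvPolynomial Filter Topology

namespace Pool.Agent.Results.MP_ad771b_al.Slope

/-- `p` is an associated prime of `J`: a prime of the form `(J : f)`. -/
def IsAss {S : Type} [CommRing S] (J p : Ideal S) : Prop :=
  p.IsPrime ∧ ∃ f, ∀ g, g ∈ p ↔ g * f ∈ J

/-- Local v-number: the least degree of a homogeneous `f` with `(J : f) = p`. -/
noncomputable def vLoc {K : Type} [Field K] {n : ℕ} (J p : Ideal (MvPolynomial (Fin n) K)) : ℕ :=
  sInf {d | ∃ f : MvPolynomial (Fin n) K, f.IsHomogeneous d ∧ ∀ g, g ∈ p ↔ g * f ∈ J}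

/-- Initial degree. -/
noncomputable def alpha {K : Type} [Field K] {n : ℕ} (I : Ideal (MvPolynomial (Fin n) K)) : ℕ :=
  sInf {d | ∃ f ∈ I, f ≠ 0 ∧ f.IsHomogeneous d}

section
variable (K : Type) [Field K]

noncomputable def I1 : Ideal (MvPolynomial (Fin 4) K) :=
  Ideal.span {X 0 * X 1, X 0 * X 2 ^ 2, X 1 * X 3 ^ 2}

def Q (k : ℕ) (m : Fin 4 →₀ ℕ) : Prop := k ≤ m 0 + m 1 ∧ k ≤ m 0 + m 3 / 2 ∧ k ≤ m 1 + m 2 / 2

lemma pow_eq (k : ℕ) : I1 K ^ k = Ideal.span ((fun s => monomial s (1 : K)) '' {m | Q k m}) := by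
  apply le_antisymm
  · induction k with
    | zero =>
      rw [pow_zero, Ideal.one_eq_top, top_le_iff, Ideal.eq_top_iff_one]
      exact Ideal.subset_span ⟨0, by simp [Q], rfl⟩
    | succ k ih =>
      rw [pow_succ]
      refine (Ideal.mul_mono_left ih).trans ?_
      rw [I1, Ideal.span_mul_span', Ideal.span_le]
      rintro _ ⟨_, ⟨m, hm, rfl⟩, g, hg, rfl⟩
      simp only [Set.mem_insert_iff, Set.mem_singleton_iff] at hg
      simp only [Q, Set.mem_ofPred_eq] at hm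
      rcases hg with rfl | rfl | rfl <;>
      · simp only [X, monomial_pow, monomial_mul, one_pow, mul_one]
        refine Ideal.subset_span ⟨_, ?_, rfl⟩
        simp [Q]
        omega
  · rw [Ideal.span_le]
    rintro _ ⟨m, hm, rfl⟩
    simp only [Q, Set.mem_ofPred_eq] at hm
    obtain ⟨r, s, t, h0, h⟩ : ∃ r s t, r + s + t = k ∧ r + s ≤ m 0 ∧ r + t ≤ m 1 ∧ 2 * s ≤ m 2 ∧
        2 * t ≤ m 3 := ⟨k - min (min (m 0) (m 2 / 2)) k - min (min (m 1) (m 3 / 2))
          (k - min (min (m 0) (m 2 / 2)) k), min (min (m 0) (m 2 / 2)) k,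
          min (min (m 1) (m 3 / 2)) (k - min (min (m 0) (m 2 / 2)) k), by omega⟩
    have a1 : X 0 * X 1 ∈ I1 K := Ideal.subset_span (by simp)
    have a2 : X 0 * X 2 ^ 2 ∈ I1 K := Ideal.subset_span (by simp)
    have a3 : X 1 * X 3 ^ 2 ∈ I1 K := Ideal.subset_span (by simp)
    have h1 := Ideal.mul_mem_mul (Ideal.mul_mem_mul (Ideal.pow_mem_pow a1 r)
      (Ideal.pow_mem_pow a2 s)) (Ideal.pow_mem_pow a3 t)
    rw [← pow_add, ← pow_add, h0] at h1
    simp only [X, monomial_pow, monomial_mul, one_pow, mul_one] at h1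
    refine Ideal.mem_of_dvd _ (monomial_dvd_monomial.2 ⟨Or.inr ?_, dvd_rfl⟩) h1
    intro i
    fin_cases i <;> simp <;> omega

lemma mem_pow {k : ℕ} {f : MvPolynomial (Fin 4) K} : f ∈ I1 K ^ k ↔ ∀ m ∈ f.support, Q k m := by
  rw [pow_eq, mem_ideal_span_monomial_image]
  refine forall₂_congr fun m _ => ⟨fun ⟨s, hs, h⟩ => ?_, fun h => ⟨m, h, le_rfl⟩⟩
  have h0 := h 0
  have h1 := h 1
  have h2 := h 2
  have h3 := h 3
  simp only [Q, Set.mem_ofPred_eq] at hs ⊢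
  omega

noncomputable def o (f : MvPolynomial (Fin 4) K) : ℕ∞ :=
  (f : MvPowerSeries (Fin 4) K).weightedOrder ![1, 1, 0, 0]

lemma le_o {n : ℕ} {f : MvPolynomial (Fin 4) K} : n ≤ o K f ↔ ∀ m ∈ f.support, n ≤ m 0 + m 1 := by
  have hw : ∀ m : Fin 4 →₀ ℕ, Finsupp.weight ![1, 1, 0, 0] m = m 0 + m 1 := fun m => by
    rw [Finsupp.weight_apply, Finsupp.sum_fintype _ _ (by simp), Fin.sum_univ_four]; simp
  constructor
  · intro h m hm
    have := h.trans (MvPowerSeries.weightedOrder_le _ (d := m) (by simpa using hm))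
    rw [hw] at this
    exact_mod_cast this
  · intro h
    refine MvPowerSeries.nat_le_weightedOrder _ fun m hm => ?_
    rw [hw] at hm
    rw [coeff_coe]
    by_contra hc
    have := h m (mem_support_iff.2 hc)
    omega

lemma o_mul (f g : MvPolynomial (Fin 4) K) : o K (f * g) = o K f + o K g := by
  rw [o, coe_mul, MvPowerSeries.weightedOrder_mul]; rfl

noncomputable def P : Ideal (MvPolynomial (Fin 4) K) := Ideal.span {X 0, X 1}

lemma mem_P {g : MvPolynomial (Fin 4) K} : g ∈ P K ↔ 1 ≤ o K g := by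
  have : P K = Ideal.span (X '' {0, 1}) := by simp [P, Set.image_insert_eq]
  rw [this, mem_ideal_span_X_image, ← Nat.cast_one, le_o]
  refine forall₂_congr fun m _ => ?_
  simp only [Set.mem_insert_iff, Set.mem_singleton_iff, exists_eq_or_imp, exists_eq_left]
  omega

lemma P_prime : (P K).IsPrime := by
  refine ⟨fun h => ?_, fun {x y} h => ?_⟩
  · have := (le_o K (n := 1)).1 ((mem_P K).1 ((Ideal.eq_top_iff_one _).1 h)) 0 (by simp)
    simp at this
  · rw [mem_P, o_mul] at h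
    rw [mem_P, mem_P]
    by_contra hc
    simp only [not_or, not_le, Order.lt_one_iff] at hc
    simp [hc.1, hc.2] at h

lemma key {k : ℕ} {f : MvPolynomial (Fin 4) K} (hf : f ∉ I1 K ^ k) (hx : X 0 * f ∈ I1 K ^ k)
    (hy : X 1 * f ∈ I1 K ^ k) :
    ∃ m ∈ f.support, m 0 + m 1 < k ∧ 3 * k + 1 ≤ m 0 + m 1 + m 2 + m 3 := by
  rw [mem_pow] at hf
  push Not at hf
  obtain ⟨m, hm, h⟩ := hf
  have h1 : ∀ i, Finsupp.single i 1 + m ∈ (X i * f).support := fun i => by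
    rw [mem_support_iff, coeff_X_mul]; exact mem_support_iff.1 hm
  have e0 := (mem_pow K).1 hx _ (h1 0)
  have e1 := (mem_pow K).1 hy _ (h1 1)
  simp [Q] at e0 e1 h
  exact ⟨m, hm, by omega⟩

lemma colon {k : ℕ} {f : MvPolynomial (Fin 4) K} (hf : f ∉ I1 K ^ k) (hx : X 0 * f ∈ I1 K ^ k)
    (hy : X 1 * f ∈ I1 K ^ k) (g) : g ∈ P K ↔ g * f ∈ I1 K ^ k := by
  constructor
  · intro hg
    obtain ⟨a, b, rfl⟩ := Ideal.mem_span_pair.1 hg
    rw [add_mul, mul_assoc, mul_assoc]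
    exact add_mem (Ideal.mul_mem_left _ _ hx) (Ideal.mul_mem_left _ _ hy)
  · intro hg
    obtain ⟨m, hm, h, -⟩ := key K hf hx hy
    have h1 : (k : ℕ∞) ≤ o K (g * f) := (le_o K).2 fun m hm => ((mem_pow K).1 hg m hm).1
    rw [mem_P]
    by_contra hc
    rw [not_le, Order.lt_one_iff] at hc
    rw [o_mul, hc, zero_add] at h1
    have := (le_o K).1 h1 m hm
    omega

lemma wit (k : ℕ) : ∃ f : MvPolynomial (Fin 4) K, f.IsHomogeneous (3 * (k + 1) + 1) ∧
    ∀ g, g ∈ P K ↔ g * f ∈ I1 K ^ (k + 1) := by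
  classical
  refine ⟨monomial (Finsupp.single 0 k + Finsupp.single 2 (2 * k + 2) + Finsupp.single 3 2) 1,
    isHomogeneous_monomial _ (by simp only [map_add, Finsupp.degree_single]; ring), colon K ?_ ?_ ?_⟩
  · rw [mem_pow, support_monomial]; simp [Q]
  · rw [X, monomial_mul, mem_pow, support_monomial]; simp [Q]
  · rw [X, monomial_mul, mem_pow, support_monomial]; simp [Q]; omega

lemma deg {f : MvPolynomial (Fin 4) K} {d : ℕ} (hd : f.IsHomogeneous d) {m} (hm : m ∈ f.support) :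
    d = m 0 + m 1 + m 2 + m 3 := by
  rw [hd.degree_eq_sum_deg_support hm, ← Fin.sum_univ_four (fun i => m i)]
  exact Finset.sum_subset (Finset.subset_univ _) fun i _ hi => Finsupp.notMem_support_iff.1 hi
end

theorem result (K : Type) [Field K] : ∃ I p : Ideal (MvPolynomial (Fin 4) K),
    (∃ s : Set (MvPolynomial (Fin 4) K), (∀ g ∈ s, ∃ d, g.IsHomogeneous d) ∧ I = Ideal.span s) ∧
    I ≠ ⊥ ∧ I ≠ ⊤ ∧ Maximal (fun q => ∀ᶠ k in atTop, IsAss (I ^ k) q) p ∧ alpha I = 2 ∧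
    Tendsto (fun k : ℕ => (vLoc (I ^ k) p : ℝ) / k) atTop (𝓝 3) := by
  have a1 : X 0 * X 1 ∈ I1 K := Ideal.subset_span (by simp)
  have hx : X 0 ∈ P K := Ideal.subset_span (by simp)
  have hy : X 1 ∈ P K := Ideal.subset_span (by simp)
  have hv : ∀ k, vLoc (I1 K ^ (k + 1)) (P K) = 3 * (k + 1) + 1 := fun k => by
    refine le_antisymm (Nat.sInf_le (wit K k)) (le_csInf ⟨_, wit K k⟩ ?_)
    rintro d ⟨f, hf, h⟩
    obtain ⟨m, hm, -, h1⟩ := key K (fun hI => (P_prime K).ne_top ((Ideal.eq_top_iff_one _).2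
      ((h 1).2 (by rwa [one_mul])))) ((h _).1 hx) ((h _).1 hy)
    rwa [deg K hf hm]
  refine ⟨I1 K, P K, ⟨_, fun g hg => ?_, rfl⟩, fun h => ?_, fun h => ?_, ⟨?_, fun q hq hle g hg => ?_⟩,
    ?_, ?_⟩
  · simp only [Set.mem_insert_iff, Set.mem_singleton_iff] at hg
    rcases hg with rfl | rfl | rfl
    exacts [⟨_, (isHomogeneous_X K _).mul (isHomogeneous_X K _)⟩,
      ⟨_, (isHomogeneous_X K _).mul ((isHomogeneous_X K _).pow 2)⟩,
      ⟨_, (isHomogeneous_X K _).mul ((isHomogeneous_X K _).pow 2)⟩]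
  · rw [h, Ideal.mem_bot] at a1
    simp at a1
  · have := (mem_pow K (k := 1) (f := 1)).1 (by rw [h]; simp) 0 (by simp)
    simp [Q] at this
  · filter_upwards [eventually_ge_atTop 1] with k hk
    obtain ⟨k, rfl⟩ : ∃ j, k = j + 1 := ⟨k - 1, by omega⟩
    obtain ⟨f, -, hf⟩ := wit K k
    exact ⟨P_prime K, f, hf⟩
  · obtain ⟨k, hq1, f, hf⟩ := hq.exists
    exact (colon K (fun hI => hq1.ne_top ((Ideal.eq_top_iff_one _).2 ((hf 1).2 (by rwa [one_mul]))))
      ((hf _).1 (hle hx)) ((hf _).1 (hle hy)) g).2 ((hf g).1 hg)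
  · have h2 : 2 ∈ {d | ∃ f ∈ I1 K, f ≠ 0 ∧ f.IsHomogeneous d} :=
      ⟨_, a1, by simp, (isHomogeneous_X K _).mul (isHomogeneous_X K _)⟩
    refine le_antisymm (Nat.sInf_le h2) (le_csInf ⟨_, h2⟩ ?_)
    rintro d ⟨f, hf, h0, hd⟩
    obtain ⟨m, hm⟩ := support_nonempty.2 h0
    have := (mem_pow K (k := 1)).1 (by rwa [pow_one]) m hm
    rw [deg K hd hm]
    simp only [Q] at this
    omega
  · have h1 : Tendsto (fun k : ℕ => (3 : ℝ) + 1 / k) atTop (𝓝 (3 + 0)) :=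
      tendsto_const_nhds.add tendsto_one_div_atTop_nhds_zero_nat
    rw [add_zero] at h1
    refine h1.congr' ?_
    filter_upwards [eventually_ge_atTop 1] with k hk
    obtain ⟨k, rfl⟩ : ∃ j, k = j + 1 := ⟨k - 1, by omega⟩
    rw [hv]
    push_cast
    field_simp

end Pool.Agent.Results.MP_ad771b_al.Slope
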